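import Mathlib

/-!
An abstract sequence space and a general renorming procedure.
-/

namespace Q88.DP

open Filter Topology

open scoped ENNReal ZeroAtInfty

/-- Functionals are absolutely summable along sequences whose finite signed sums are bounded. -/
theorem summable_of_signs {V : Type*} [NormedAddCommGroup V] [NormedSpace ℝ V] (v : ℕ → V)
    (hv : ∀ (s : Finset ℕ) (σ : ℕ → ℝ), (∀ k, |σ k| ≤ 1) → ‖∑ k ∈ s, σ k • v k‖ ≤ 1)
    (F : V →L[ℝ] ℝ) : Summable (fun k => |F (v k)|) := by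
  refine summable_of_sum_le (c := ‖F‖) (fun k => abs_nonneg _) (fun s => ?_)
  have h1 : ∑ k ∈ s, |F (v k)| = F (∑ k ∈ s, (SignType.sign (F (v k)) : ℝ) • v k) := by
    rw [map_sum]
    refine Finset.sum_congr rfl (fun k _ => ?_)
    rw [map_smul, smul_eq_mul, sign_mul_self]
  rw [h1]
  refine (le_abs_self _).trans ((F.le_opNorm _).trans ?_)
  refine (mul_le_mul_of_nonneg_left (hv s _ (fun k => ?_)) (norm_nonneg _)).trans
    (mul_one _).le
  rcases lt_trichotomy (F (v k)) 0 with h | h | h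
  · simp [sign_neg h]
  · simp [h]
  · simp [sign_pos h]

/-- The coordinates of the base space `ℝ × c₀ × c₀`. -/
structure Base (E : Type) [NormedAddCommGroup E] [NormedSpace ℝ E] where
  lam : E →L[ℝ] ℝ
  Y : ℕ → E →L[ℝ] ℝ
  W : ℕ → E →L[ℝ] ℝ
  lam_le : ∀ e, |lam e| ≤ ‖e‖
  Y_le : ∀ k e, |Y k e| ≤ ‖e‖
  W_le : ∀ k e, |W k e| ≤ ‖e‖
  norm_le : ∀ (e : E) (C : ℝ), 0 ≤ C → |lam e| ≤ C → (∀ k, |Y k e| ≤ C) → (∀ k, |W k e| ≤ C) →
    ‖e‖ ≤ C
  Y_lim : ∀ e, Tendsto (fun k => Y k e) atTop (𝓝 0)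
  W_lim : ∀ e, Tendsto (fun k => W k e) atTop (𝓝 0)
  one : E
  lam_one : lam one = 1
  Y_one : ∀ k, Y k one = 0
  W_one : ∀ k, W k one = 0
  dl : ℕ → E
  lam_dl : ∀ n, lam (dl n) = 0
  Y_dl : ∀ n k, Y k (dl n) = if k = n then 1 else 0
  W_dl : ∀ n k, W k (dl n) = 0
  om : ℕ → E
  lam_om : ∀ n, lam (om n) = 0
  Y_om : ∀ n k, Y k (om n) = 0
  W_om : ∀ n k, W k (om n) = if k = n then 1 else 0

/-- coordinate functional on `c₀` -/
noncomputable def ev (k : ℕ) : C₀(ℕ, ℝ) →L[ℝ] ℝ :=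
  LinearMap.mkContinuous
    { toFun := fun f => f k
      map_add' := fun f g => rfl
      map_smul' := fun c f => rfl } 1 (fun f => by
        rw [one_mul]
        exact f.toBCF.norm_coe_le_norm k)

theorem ev_apply (k : ℕ) (f : C₀(ℕ, ℝ)) : ev k f = f k := rfl

theorem ev_le (k : ℕ) (f : C₀(ℕ, ℝ)) : |f k| ≤ ‖f‖ := f.toBCF.norm_coe_le_norm k

theorem c0_norm_le (f : C₀(ℕ, ℝ)) (C : ℝ) (hC : 0 ≤ C) (h : ∀ k, |f k| ≤ C) : ‖f‖ ≤ C := by
  rw [← ZeroAtInftyContinuousMap.norm_toBCF_eq_norm]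
  exact (BoundedContinuousFunction.norm_le hC).2 h

theorem c0_lim (f : C₀(ℕ, ℝ)) : Tendsto (fun k => f k) atTop (𝓝 0) := by
  have := f.zero_at_infty'
  rw [cocompact_eq_cofinite, Nat.cofinite_eq_atTop] at this
  exact this

/-- unit vectors of `c₀` -/
noncomputable def uv (n : ℕ) : C₀(ℕ, ℝ) where
  toFun := fun k => if k = n then 1 else 0
  continuous_toFun := continuous_of_discreteTopology
  zero_at_infty' := by
    rw [cocompact_eq_cofinite, Nat.cofinite_eq_atTop]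
    refine tendsto_const_nhds.congr' ?_
    filter_upwards [eventually_gt_atTop n] with k hk
    rw [if_neg (by omega)]

theorem uv_apply (n k : ℕ) : uv n k = if k = n then 1 else 0 := rfl

/-- The concrete base space. -/
noncomputable def base : Base (ℝ × C₀(ℕ, ℝ) × C₀(ℕ, ℝ)) where
  lam := ContinuousLinearMap.fst ℝ ℝ (C₀(ℕ, ℝ) × C₀(ℕ, ℝ))
  Y := fun k => (ev k).comp ((ContinuousLinearMap.fst ℝ C₀(ℕ, ℝ) C₀(ℕ, ℝ)).comp
    (ContinuousLinearMap.snd ℝ ℝ (C₀(ℕ, ℝ) × C₀(ℕ, ℝ))))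
  W := fun k => (ev k).comp ((ContinuousLinearMap.snd ℝ C₀(ℕ, ℝ) C₀(ℕ, ℝ)).comp
    (ContinuousLinearMap.snd ℝ ℝ (C₀(ℕ, ℝ) × C₀(ℕ, ℝ))))
  lam_le := fun e => norm_fst_le e
  Y_le := fun k e => (ev_le k e.2.1).trans ((norm_fst_le e.2).trans (norm_snd_le e))
  W_le := fun k e => (ev_le k e.2.2).trans ((norm_snd_le e.2).trans (norm_snd_le e))
  norm_le := fun e C hC h1 h2 h3 =>
    norm_prod_le_iff.2 ⟨h1, norm_prod_le_iff.2 ⟨c0_norm_le _ C hC h2, c0_norm_le _ C hC h3⟩⟩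
  Y_lim := fun e => c0_lim e.2.1
  W_lim := fun e => c0_lim e.2.2
  one := (1, 0, 0)
  lam_one := rfl
  Y_one := fun k => rfl
  W_one := fun k => rfl
  dl := fun n => (0, uv n, 0)
  lam_dl := fun n => rfl
  Y_dl := fun n k => rfl
  W_dl := fun n k => rfl
  om := fun n => (0, 0, uv n)
  lam_om := fun n => rfl
  Y_om := fun n k => rfl
  W_om := fun n k => rfl

end Q88.DP
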