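import Mathlib

/-!
Diametral points: definitions.
-/

namespace Q88.DP

section

variable {X : Type*} [NormedAddCommGroup X] [NormedSpace ℝ X]

/-- The slice `{y ∈ B_X : f y > ‖f‖ - α}` of the closed unit ball. -/
def slice (f : X →L[ℝ] ℝ) (α : ℝ) : Set X := {y | ‖y‖ ≤ 1 ∧ ‖f‖ - α < f y}

/-- `S` is a slice of the closed unit ball. -/
def IsSlice (S : Set X) : Prop := ∃ (f : X →L[ℝ] ℝ) (α : ℝ), f ≠ 0 ∧ 0 < α ∧ S = slice f α

/-- `C` is a convex combination of slices of the closed unit ball. -/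
def IsConvCombSlices (C : Set X) : Prop :=
  ∃ (n : ℕ) (l : Fin n → ℝ) (S : Fin n → Set X), (∀ i, 0 < l i) ∧ ∑ i, l i = 1 ∧
    (∀ i, IsSlice (S i)) ∧ C = {y | ∃ z : Fin n → X, (∀ i, z i ∈ S i) ∧ y = ∑ i, l i • z i}

/-- The supremum of `‖x - y‖` over `y ∈ A` equals `2`. -/
def SupDistTwo (x : X) (A : Set X) : Prop := IsLUB ((fun y => ‖x - y‖) '' A) 2

/-- `x` is a Delta-point (of the unit sphere). -/
def IsDelta (x : X) : Prop := ∀ S : Set X, IsSlice S → x ∈ S → SupDistTwo x S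

/-- `x` is a ccs Delta-point. -/
def IsCcsDelta (x : X) : Prop := ∀ C : Set X, IsConvCombSlices C → x ∈ C → SupDistTwo x C

/-- `x` is a super Delta-point: every relatively weakly open subset of the unit ball containing
`x` contains points at distance almost `2` from `x`. -/
def IsSuperDelta (x : X) : Prop :=
  ∀ V : Set (WeakSpace ℝ X), IsOpen V → toWeakSpace ℝ X x ∈ V →
    SupDistTwo x {y : X | ‖y‖ ≤ 1 ∧ toWeakSpace ℝ X y ∈ V}

end

end Q88.DP
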