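import Pool.Agent.Q88.DP.Main

/-!
An extreme Delta-point which is neither a ccs Delta-point nor a super Delta-point: final statement.
-/

namespace Q88.DP

open Filter Topology

section

variable {E : Type} [NormedAddCommGroup E] [NormedSpace ℝ E] (B : Base E)
  {X : Type} [NormedAddCommGroup X] [NormedSpace ℝ X] (T : E ≃L[ℝ] X)
  (h1 : ∀ (e : E) (i : ℕ × Fin 4), |cc B i e| ≤ ‖T e‖)
  (h2 : ∀ (e : E) (r : ℝ), 0 ≤ r → (∀ i, |cc B i e| ≤ r) → ‖T e‖ ≤ r)

include h1 in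
theorem Bd_of_le {e : E} {r : ℝ} (h : ‖T e‖ ≤ r) : Bd B e r :=
  (Bd_iff B e r).1 (fun i => (h1 e i).trans h)

include h2 in
theorem le_of_Bd {e : E} {r : ℝ} (hr : 0 ≤ r) (h : Bd B e r) : ‖T e‖ ≤ r :=
  h2 e r hr ((Bd_iff B e r).2 h)

include h1 h2 in
theorem norm_one_pt : ‖T B.one‖ = 1 := by
  refine le_antisymm (le_of_Bd B T h2 zero_le_one (Bd_one B)) ?_
  have := h1 B.one (0, 0)
  rw [cc0, B.lam_one, B.Y_one, B.W_one, B.W_one] at this
  simpa using this

/-- rigidity at the distinguished point -/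
theorem rigid {a b : ℝ} (ha : 0 < a) (hb : 0 < b) (hab : a + b = 1) {e f : E} (he : Bd B e 1)
    (hf : Bd B f 1) (hef : a • e + b • f = B.one) : e = B.one := by
  have key : ∀ u v : ℝ, u ≤ 1 → v ≤ 1 → a * u + b * v = 1 → u = 1 := by
    intro u v hu hv huv
    by_contra hne
    have hlt : u < 1 := lt_of_le_of_ne hu hne
    nlinarith [mul_lt_mul_of_pos_left hlt ha, mul_le_mul_of_nonneg_left hv hb.le]
  have k0 : ∀ k, B.lam e + B.Y k e + bb k * (B.W k e - B.W (k + 1) e) = 1 := by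
    intro k
    refine key _ _ (le_of_abs_le (he.1 k)) (le_of_abs_le (hf.1 k)) ?_
    have := congrArg (cc B (k, 0)) hef
    rw [map_add, map_smul, map_smul, cc0, cc0, cc0, B.lam_one, B.Y_one, B.W_one, B.W_one] at this
    simpa using this
  have k1 : ∀ k, B.lam e + B.Y k e - bb k * (B.W k e - B.W (k + 1) e) = 1 := by
    intro k
    refine key _ _ (le_of_abs_le (he.2.1 k)) (le_of_abs_le (hf.2.1 k)) ?_
    have := congrArg (cc B (k, 1)) hef
    rw [map_add, map_smul, map_smul, cc1, cc1, cc1, B.lam_one, B.Y_one, B.W_one, B.W_one] at this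
    simpa using this
  have j : ∀ k, B.W k e = B.W (k + 1) e := by
    intro k
    have h : bb k * (B.W k e - B.W (k + 1) e) = 0 := by linarith [k0 k, k1 k]
    rcases mul_eq_zero.1 h with h | h
    · exact absurd h (bb_pos k).ne'
    · exact sub_eq_zero.1 h
  have jc : ∀ k, B.W k e = B.W 0 e := by
    intro k
    induction k with
    | zero => rfl
    | succ k ih => rw [← j k, ih]
  have w0 : B.W 0 e = 0 := by
    refine tendsto_nhds_unique ?_ (B.W_lim e)
    exact tendsto_const_nhds.congr (fun k => (jc k).symm)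
  have ly : ∀ k, B.lam e + B.Y k e = 1 := by
    intro k
    have := k0 k
    rw [← j k, sub_self, mul_zero, add_zero] at this
    exact this
  have l1 : B.lam e = 1 := by
    refine tendsto_nhds_unique (lim_lamY B e) ?_
    exact tendsto_const_nhds.congr (fun k => (ly k).symm)
  refine Base.ext_one B l1 (fun k => ?_) (fun k => by rw [jc, w0])
  have := ly k
  rw [l1] at this
  linarith

include h1 h2 in
theorem extreme_pt : T B.one ∈ (Metric.closedBall (0 : X) 1).extremePoints ℝ := by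
  rw [mem_extremePoints_iff_left]
  refine ⟨by rw [mem_closedBall_zero_iff]; exact (norm_one_pt B T h1 h2).le, ?_⟩
  intro u hu v hv huv
  rw [mem_closedBall_zero_iff] at hu hv
  obtain ⟨a, b, ha, hb, hab, huv⟩ := huv
  obtain ⟨e, rfl⟩ := T.surjective u
  obtain ⟨f, rfl⟩ := T.surjective v
  have hef : a • e + b • f = B.one := by
    apply T.injective
    rw [map_add, map_smul, map_smul]
    exact huv
  rw [rigid B ha hb hab (Bd_of_le B T h1 hu) (Bd_of_le B T h1 hv) hef]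

include h1 h2 in
theorem far_dist (n : ℕ) : 2 ≤ ‖T B.one - T (yy B n)‖ := by
  rw [← map_sub]
  rcases sg_cases n with hs | hs
  · have := h1 (B.one - yy B n) (n, 1)
    rw [cc1, map_sub, map_sub, map_sub, map_sub, B.lam_one, B.Y_one, B.W_one, B.W_one, lam_yy,
      Y_yy, if_pos rfl] at this
    have hj := jump_yy B n n
    rw [if_pos rfl, hs] at hj
    refine le_trans ?_ ((le_abs_self _).trans this)
    have : bb n * (0 - B.W n (yy B n) - (0 - B.W (n + 1) (yy B n))) = - bb n := by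
      have : 0 - B.W n (yy B n) - (0 - B.W (n + 1) (yy B n)) =
        -(B.W n (yy B n) - B.W (n + 1) (yy B n)) := by ring
      rw [this, hj]; ring
    rw [this]; linarith
  · have := h1 (B.one - yy B n) (n, 0)
    rw [cc0, map_sub, map_sub, map_sub, map_sub, B.lam_one, B.Y_one, B.W_one, B.W_one, lam_yy,
      Y_yy, if_pos rfl] at this
    have hj := jump_yy B n n
    rw [if_pos rfl, hs] at hj
    refine le_trans ?_ ((le_abs_self _).trans this)
    have : bb n * (0 - B.W n (yy B n) - (0 - B.W (n + 1) (yy B n))) = bb n := by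
      have : 0 - B.W n (yy B n) - (0 - B.W (n + 1) (yy B n)) =
        -(B.W n (yy B n) - B.W (n + 1) (yy B n)) := by ring
      rw [this, hj]; ring
    rw [this]; linarith

include h1 h2 in
theorem delta_pt : IsDelta (T B.one) := by
  rintro S ⟨f, α, -, hα, rfl⟩ hx
  have hx1 := norm_one_pt B T h1 h2
  obtain ⟨n, hn⟩ := exists_far B (f.comp (T : E →L[ℝ] X)) (f (T B.one) - (‖f‖ - α))
    (by linarith [hx.2])
  have hn' : ‖f‖ - α < f (T (yy B n)) := by
    have : f (T B.one) - (f (T B.one) - (‖f‖ - α)) < f (T (yy B n)) := hn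
    linarith
  have hy1 : ‖T (yy B n)‖ ≤ 1 := le_of_Bd B T h2 zero_le_one (Bd_yy B n)
  constructor
  · rintro _ ⟨y, hy, rfl⟩
    calc ‖T B.one - y‖ ≤ ‖T B.one‖ + ‖y‖ := norm_sub_le _ _
      _ ≤ 2 := by rw [hx1]; linarith [hy.1]
  · intro r hr
    exact (far_dist B T h1 h2 n).trans (hr ⟨T (yy B n), ⟨hy1, hn'⟩, rfl⟩)

/-- the two functionals -/
noncomputable def ff (s : ℝ) : X →L[ℝ] ℝ :=
  (1 / 2 : ℝ) • (B.lam + s • B.W 0).comp (T.symm : X →L[ℝ] E)

theorem ff_apply (s : ℝ) (e : E) : ff B T s (T e) = 1 / 2 * (B.lam e + s * B.W 0 e) := by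
  change 1 / 2 * (B.lam (T.symm (T e)) + s * B.W 0 (T.symm (T e))) = _
  rw [T.symm_apply_apply]

theorem ff_one (s : ℝ) : ff B T s (T B.one) = 1 / 2 := by
  rw [ff_apply, B.lam_one, B.W_one]; ring

include h1 h2 in
theorem ff_norm (s : ℝ) : 1 / 2 ≤ ‖ff B T s‖ := by
  have := (ff B T s).le_opNorm (T B.one)
  rw [norm_one_pt B T h1 h2, mul_one, ff_one] at this
  refine le_trans ?_ this
  rw [Real.norm_eq_abs]
  exact le_abs_self _

/-- the main estimate on the two slices -/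
theorem lower_one {s : ℝ} {e : E} (he : Bd B e 1) (hs : 1 / 2 - 1 / 12 < 1 / 2 * (B.lam e + s * B.W 0 e))
    (k : ℕ) (hk : sg k = -s) (hs1 : s = 1 ∨ s = -1) : -(5 / 6) ≤ B.lam e + B.Y k e := by
  have a1 := abs_le.1 (he.2.2.2 k)
  have a2 := abs_le.1 (he.2.2.1 0)
  rw [hk] at a1
  rcases hs1 with rfl | rfl
  · linarith [a1.1, a2.1, a2.2]
  · linarith [a1.1, a2.1, a2.2]

/-- the distance estimate for the average -/
theorem Bd_avg {e f : E} (he : Bd B e 1) (hf : Bd B f 1)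
    (hse : 1 / 2 - 1 / 12 < 1 / 2 * (B.lam e + 1 * B.W 0 e))
    (hsf : 1 / 2 - 1 / 12 < 1 / 2 * (B.lam f + (-1) * B.W 0 f)) :
    Bd B (B.one - (1 / 2 : ℝ) • (e + f)) (47 / 24) := by
  have key : ∀ k, 0 ≤ 1 - 1 / 2 * ((B.lam e + B.Y k e) + (B.lam f + B.Y k f)) ∧
      1 - 1 / 2 * ((B.lam e + B.Y k e) + (B.lam f + B.Y k f)) ≤ 23 / 12 := by
    intro k
    have a1 := abs_le.1 (he.lamY B k)
    have a2 := abs_le.1 (hf.lamY B k)
    refine ⟨by linarith, ?_⟩
    rcases sg_cases k with hs | hs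
    · have := lower_one B hf hsf k (by rw [hs]; norm_num) (Or.inr rfl)
      linarith [a1.1]
    · have := lower_one B he hse k (by rw [hs]) (Or.inl rfl)
      linarith [a2.1]
  have hw : ∀ k, |1 / 2 * ((B.W k e - B.W (k + 1) e) + (B.W k f - B.W (k + 1) f))| ≤ 2 := by
    intro k
    have a1 := abs_le.1 (he.2.2.1 k)
    have a2 := abs_le.1 (he.2.2.1 (k + 1))
    have a3 := abs_le.1 (hf.2.2.1 k)
    have a4 := abs_le.1 (hf.2.2.1 (k + 1))
    rw [abs_le]
    constructor <;> linarith [a1.1, a1.2, a2.1, a2.2, a3.1, a3.2, a4.1, a4.2]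
  have hbw : ∀ k, |bb k * (1 / 2 * ((B.W k e - B.W (k + 1) e) + (B.W k f - B.W (k + 1) f)))| ≤
      1 / 48 * 2 := by
    intro k
    rw [abs_mul, abs_of_pos (bb_pos k)]
    exact mul_le_mul (bb_le k) (hw k) (abs_nonneg _) (by norm_num)
  refine ⟨fun k => ?_, fun k => ?_, fun k => ?_, fun k => ?_⟩ <;>
    simp only [map_sub, map_smul, map_add, smul_eq_mul, B.lam_one, B.Y_one, B.W_one]
  · obtain ⟨b1, b2⟩ := key k
    have b3 := abs_le.1 (hbw k)
    have : 1 - 1 / 2 * (B.lam e + B.lam f) + (0 - 1 / 2 * (B.Y k e + B.Y k f)) +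
        bb k * (0 - 1 / 2 * (B.W k e + B.W k f) - (0 - 1 / 2 * (B.W (k + 1) e + B.W (k + 1) f))) =
        (1 - 1 / 2 * ((B.lam e + B.Y k e) + (B.lam f + B.Y k f))) -
        bb k * (1 / 2 * ((B.W k e - B.W (k + 1) e) + (B.W k f - B.W (k + 1) f))) := by ring
    rw [this, abs_le]
    constructor <;> linarith [b3.1, b3.2]
  · obtain ⟨b1, b2⟩ := key k
    have b3 := abs_le.1 (hbw k)
    have : 1 - 1 / 2 * (B.lam e + B.lam f) + (0 - 1 / 2 * (B.Y k e + B.Y k f)) -
        bb k * (0 - 1 / 2 * (B.W k e + B.W k f) - (0 - 1 / 2 * (B.W (k + 1) e + B.W (k + 1) f))) =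
        (1 - 1 / 2 * ((B.lam e + B.Y k e) + (B.lam f + B.Y k f))) +
        bb k * (1 / 2 * ((B.W k e - B.W (k + 1) e) + (B.W k f - B.W (k + 1) f))) := by ring
    rw [this, abs_le]
    constructor <;> linarith [b3.1, b3.2]
  · have a1 := abs_le.1 (he.2.2.1 k)
    have a2 := abs_le.1 (hf.2.2.1 k)
    rw [abs_le]
    constructor <;> linarith [a1.1, a1.2, a2.1, a2.2]
  · have a1 := abs_le.1 (he.2.2.2 k)
    have a2 := abs_le.1 (hf.2.2.2 k)
    have : 3 / 4 * (0 - 1 / 2 * (B.Y k e + B.Y k f)) +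
        1 / 2 * sg k * (0 - 1 / 2 * (B.W 0 e + B.W 0 f)) =
        -(1 / 2 * ((3 / 4 * B.Y k e + 1 / 2 * sg k * B.W 0 e) +
          (3 / 4 * B.Y k f + 1 / 2 * sg k * B.W 0 f))) := by ring
    rw [this, abs_le]
    constructor <;> linarith [a1.1, a1.2, a2.1, a2.2]

include h1 h2 in
theorem avg_le {u v : X} (hu : ‖u‖ ≤ 1) (hv : ‖v‖ ≤ 1) (hfu : 1 / 2 - 1 / 12 < ff B T 1 u)
    (hfv : 1 / 2 - 1 / 12 < ff B T (-1) v) : ‖T B.one - (1 / 2 : ℝ) • (u + v)‖ ≤ 47 / 24 := by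
  obtain ⟨e, rfl⟩ := T.surjective u
  obtain ⟨f, rfl⟩ := T.surjective v
  rw [ff_apply] at hfu hfv
  rw [← map_add, ← map_smul, ← map_sub]
  exact le_of_Bd B T h2 (by norm_num)
    (Bd_avg B (Bd_of_le B T h1 hu) (Bd_of_le B T h1 hv) hfu hfv)

include h1 h2 in
theorem not_ccs : ¬ IsCcsDelta (T B.one) := by
  intro h
  have hx1 := norm_one_pt B T h1 h2
  have hsl : ∀ s, IsSlice (slice (ff B T s) (‖ff B T s‖ - (1 / 2 - 1 / 12))) := fun s =>
    ⟨ff B T s, _, fun h0 => by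
      have := ff_norm B T h1 h2 s
      rw [h0, norm_zero] at this; norm_num at this, by
      have := ff_norm B T h1 h2 s
      linarith, rfl⟩
  have hmem : ∀ s, T B.one ∈ slice (ff B T s) (‖ff B T s‖ - (1 / 2 - 1 / 12)) := fun s =>
    ⟨hx1.le, by rw [ff_one]; linarith⟩
  have hC := h {y | ∃ z : Fin 2 → X, (∀ i, z i ∈
      (![slice (ff B T 1) (‖ff B T 1‖ - (1 / 2 - 1 / 12)),
        slice (ff B T (-1)) (‖ff B T (-1)‖ - (1 / 2 - 1 / 12))] : Fin 2 → Set X) i) ∧
        y = ∑ i, (![1 / 2, 1 / 2] : Fin 2 → ℝ) i • z i} ⟨2, ![1 / 2, 1 / 2],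
      ![slice (ff B T 1) (‖ff B T 1‖ - (1 / 2 - 1 / 12)),
        slice (ff B T (-1)) (‖ff B T (-1)‖ - (1 / 2 - 1 / 12))], ?_, ?_, ?_, rfl⟩ ?_
  · have hub : (47 / 24 : ℝ) ∈ upperBounds ((fun y => ‖T B.one - y‖) '' {y | ∃ z : Fin 2 → X,
        (∀ i, z i ∈ (![slice (ff B T 1) (‖ff B T 1‖ - (1 / 2 - 1 / 12)),
        slice (ff B T (-1)) (‖ff B T (-1)‖ - (1 / 2 - 1 / 12))] : Fin 2 → Set X) i) ∧
        y = ∑ i, (![1 / 2, 1 / 2] : Fin 2 → ℝ) i • z i}) := by
      rintro _ ⟨y, ⟨z, hz, rfl⟩, rfl⟩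
      have z0 : z 0 ∈ slice (ff B T 1) (‖ff B T 1‖ - (1 / 2 - 1 / 12)) := hz 0
      have z1 : z 1 ∈ slice (ff B T (-1)) (‖ff B T (-1)‖ - (1 / 2 - 1 / 12)) := hz 1
      have := avg_le B T h1 h2 z0.1 z1.1 (by linarith [z0.2]) (by linarith [z1.2])
      simpa [Fin.sum_univ_two, smul_add] using this
    have := hC.2 hub
    norm_num at this
  · intro i; fin_cases i <;> norm_num
  · rw [Fin.sum_univ_two]; norm_num
  · intro i
    fin_cases i
    · exact hsl 1
    · exact hsl (-1)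
  · refine ⟨fun _ => T B.one, fun i => ?_, ?_⟩
    · fin_cases i
      · exact hmem 1
      · exact hmem (-1)
    · rw [Fin.sum_univ_two, ← add_smul]
      norm_num

include h1 h2 in
theorem not_super : ¬ IsSuperDelta (T B.one) := by
  intro h
  have hx1 := norm_one_pt B T h1 h2
  have hcont : ∀ s, Continuous (fun z : WeakSpace ℝ X => ff B T s ((toWeakSpace ℝ X).symm z)) :=
    fun s => WeakBilin.eval_continuous (topDualPairing ℝ X).flip (ff B T s)
  have hV := h {z | 1 / 2 - 1 / 12 < ff B T 1 ((toWeakSpace ℝ X).symm z) ∧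
      1 / 2 - 1 / 12 < ff B T (-1) ((toWeakSpace ℝ X).symm z)}
    ((isOpen_lt continuous_const (hcont 1)).inter (isOpen_lt continuous_const (hcont (-1)))) ?_
  · have hub : (47 / 24 : ℝ) ∈ upperBounds ((fun y => ‖T B.one - y‖) '' {y : X | ‖y‖ ≤ 1 ∧
        toWeakSpace ℝ X y ∈ {z | 1 / 2 - 1 / 12 < ff B T 1 ((toWeakSpace ℝ X).symm z) ∧
        1 / 2 - 1 / 12 < ff B T (-1) ((toWeakSpace ℝ X).symm z)}}) := by
      rintro _ ⟨y, ⟨hy1, hy2, hy3⟩, rfl⟩
      rw [LinearEquiv.symm_apply_apply] at hy2 hy3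
      have := avg_le B T h1 h2 hy1 hy1 hy2 hy3
      have e : (1 / 2 : ℝ) • (y + y) = y := by
        rw [← two_smul ℝ y, smul_smul]; norm_num
      rw [e] at this
      exact this
    have := hV.2 hub
    norm_num at this
  · change 1 / 2 - 1 / 12 < ff B T 1 ((toWeakSpace ℝ X).symm (toWeakSpace ℝ X (T B.one))) ∧
      1 / 2 - 1 / 12 < ff B T (-1) ((toWeakSpace ℝ X).symm (toWeakSpace ℝ X (T B.one)))
    rw [LinearEquiv.symm_apply_apply, ff_one, ff_one]
    norm_num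

end

/-- There is a real Banach space with an extreme Delta-point which is neither a ccs Delta-point nor
a super Delta-point. -/
theorem exists_extreme_delta :
    ∃ (X : Type) (_ : NormedAddCommGroup X) (_ : NormedSpace ℝ X) (_ : CompleteSpace X) (x : X),
      ‖x‖ = 1 ∧ x ∈ (Metric.closedBall (0 : X) 1).extremePoints ℝ ∧ IsDelta x ∧
        ¬ IsCcsDelta x ∧ ¬ IsSuperDelta x := by
  obtain ⟨X, i1, i2, i3, T, h1, h2⟩ := exists_renorm (cc base) 4 2 (by norm_num)
    (fun i e => cc_le base i e) (fun e r hr h => bd_below base e r hr h)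
  exact ⟨X, i1, i2, i3, T base.one, norm_one_pt base T h1 h2, extreme_pt base T h1 h2,
    delta_pt base T h1 h2, not_ccs base T h1 h2, not_super base T h1 h2⟩

end Q88.DP
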