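import Pool.Agent.Q88.DP.Renorm
import Pool.Agent.Q88.DP.Defs

/-!
An extreme Delta-point which is neither a ccs Delta-point nor a super Delta-point.
-/

namespace Q88.DP

open Filter Topology

/-- the weights -/
noncomputable def bb (k : ℕ) : ℝ := (1 / 2) ^ k / 48

theorem bb_pos (k : ℕ) : 0 < bb k := by unfold bb; positivity

theorem bb_le (k : ℕ) : bb k ≤ 1 / 48 := by
  unfold bb
  have : ((1 : ℝ) / 2) ^ k ≤ 1 := pow_le_one₀ (by norm_num) (by norm_num)
  linarith

theorem bb_lim : Tendsto bb atTop (𝓝 0) := by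
  have h := (tendsto_pow_atTop_nhds_zero_of_lt_one (r := (1 : ℝ) / 2) (by norm_num)
    (by norm_num)).div_const 48
  rw [zero_div] at h
  exact h

/-- the signs -/
noncomputable def sg (k : ℕ) : ℝ := (-1) ^ k

theorem sg_cases (k : ℕ) : sg k = 1 ∨ sg k = -1 := neg_one_pow_eq_or ℝ k

section

variable {E : Type} [NormedAddCommGroup E] [NormedSpace ℝ E] (B : Base E)

/-- the norming functionals -/
noncomputable def cc : ℕ × Fin 4 → E →L[ℝ] ℝ
  | (k, 0) => B.lam + B.Y k + bb k • (B.W k - B.W (k + 1))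
  | (k, 1) => B.lam + B.Y k - bb k • (B.W k - B.W (k + 1))
  | (k, 2) => B.W k
  | (k, 3) => (3 / 4 : ℝ) • B.Y k + (1 / 2 * sg k : ℝ) • B.W 0

theorem cc0 (k : ℕ) (e : E) :
    cc B (k, 0) e = B.lam e + B.Y k e + bb k * (B.W k e - B.W (k + 1) e) := rfl

theorem cc1 (k : ℕ) (e : E) :
    cc B (k, 1) e = B.lam e + B.Y k e - bb k * (B.W k e - B.W (k + 1) e) := rfl

theorem cc2 (k : ℕ) (e : E) : cc B (k, 2) e = B.W k e := rfl

theorem cc3 (k : ℕ) (e : E) : cc B (k, 3) e = 3 / 4 * B.Y k e + 1 / 2 * sg k * B.W 0 e := rfl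

/-- the bound for all norming functionals, unfolded -/
def Bd (e : E) (r : ℝ) : Prop :=
  (∀ k, |B.lam e + B.Y k e + bb k * (B.W k e - B.W (k + 1) e)| ≤ r) ∧
  (∀ k, |B.lam e + B.Y k e - bb k * (B.W k e - B.W (k + 1) e)| ≤ r) ∧
  (∀ k, |B.W k e| ≤ r) ∧ (∀ k, |3 / 4 * B.Y k e + 1 / 2 * sg k * B.W 0 e| ≤ r)

theorem Bd_iff (e : E) (r : ℝ) : (∀ i, |cc B i e| ≤ r) ↔ Bd B e r := by
  constructor
  · intro h
    exact ⟨fun k => h (k, 0), fun k => h (k, 1), fun k => h (k, 2), fun k => h (k, 3)⟩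
  · rintro ⟨h0, h1, h2, h3⟩ ⟨k, j⟩
    fin_cases j
    · exact h0 k
    · exact h1 k
    · exact h2 k
    · exact h3 k

theorem cc_le (i : ℕ × Fin 4) (e : E) : |cc B i e| ≤ 4 * ‖e‖ := by
  have h1 := B.lam_le e
  have h2 := B.Y_le
  have h3 := B.W_le
  revert i
  rw [Bd_iff]
  refine ⟨fun k => ?_, fun k => ?_, fun k => ?_, fun k => ?_⟩
  · have a1 := abs_le.1 h1
    have a2 := abs_le.1 (h2 k e)
    have a3 := abs_le.1 (h3 k e)
    have a4 := abs_le.1 (h3 (k + 1) e)
    have a5 := bb_pos k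
    have a6 := bb_le k
    have a7 : |bb k * (B.W k e - B.W (k + 1) e)| ≤ 1 * (2 * ‖e‖) := by
      rw [abs_mul, abs_of_pos a5]
      refine mul_le_mul (by linarith) ?_ (abs_nonneg _) (by norm_num)
      rw [abs_le]; constructor <;> linarith [a3.1, a3.2, a4.1, a4.2]
    have a8 := abs_le.1 a7
    rw [abs_le]; constructor <;> linarith [a1.1, a1.2, a2.1, a2.2, a8.1, a8.2]
  · have a1 := abs_le.1 h1
    have a2 := abs_le.1 (h2 k e)
    have a3 := abs_le.1 (h3 k e)
    have a4 := abs_le.1 (h3 (k + 1) e)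
    have a5 := bb_pos k
    have a6 := bb_le k
    have a7 : |bb k * (B.W k e - B.W (k + 1) e)| ≤ 1 * (2 * ‖e‖) := by
      rw [abs_mul, abs_of_pos a5]
      refine mul_le_mul (by linarith) ?_ (abs_nonneg _) (by norm_num)
      rw [abs_le]; constructor <;> linarith [a3.1, a3.2, a4.1, a4.2]
    have a8 := abs_le.1 a7
    rw [abs_le]; constructor <;> linarith [a1.1, a1.2, a2.1, a2.2, a8.1, a8.2]
  · have := norm_nonneg e
    exact (h3 k e).trans (by linarith)
  · have a2 := abs_le.1 (h2 k e)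
    have a3 := abs_le.1 (h3 0 e)
    have a4 := norm_nonneg e
    rcases sg_cases k with hs | hs <;> rw [hs, abs_le] <;>
      constructor <;> linarith [a2.1, a2.2, a3.1, a3.2]

theorem Bd.lamY {e : E} {r : ℝ} (h : Bd B e r) (k : ℕ) : |B.lam e + B.Y k e| ≤ r := by
  have h0 := abs_le.1 (h.1 k)
  have h1 := abs_le.1 (h.2.1 k)
  rw [abs_le]; constructor <;> linarith [h0.1, h0.2, h1.1, h1.2]

theorem lim_lamY (e : E) : Tendsto (fun k => B.lam e + B.Y k e) atTop (𝓝 (B.lam e)) := by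
  simpa using (tendsto_const_nhds (x := B.lam e)).add (B.Y_lim e)

theorem Bd.lam {e : E} {r : ℝ} (h : Bd B e r) : |B.lam e| ≤ r :=
  le_of_tendsto ((lim_lamY B e).abs) (Eventually.of_forall (h.lamY B))

theorem bd_below (e : E) (r : ℝ) (hr : 0 ≤ r) (h : ∀ i, |cc B i e| ≤ r) : ‖e‖ ≤ 2 * r := by
  rw [Bd_iff] at h
  refine B.norm_le e (2 * r) (by linarith) ((h.lam B).trans (by linarith)) (fun k => ?_)
    (fun k => (h.2.2.1 k).trans (by linarith))
  have h1 := abs_le.1 (h.lam B)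
  have h2 := abs_le.1 (h.lamY B k)
  rw [abs_le]; constructor <;> linarith [h1.1, h1.2, h2.1, h2.2]

theorem Base.ext_one {e : E} (h1 : B.lam e = 1) (h2 : ∀ k, B.Y k e = 0) (h3 : ∀ k, B.W k e = 0) :
    e = B.one := by
  have : ‖e - B.one‖ ≤ 0 := by
    refine B.norm_le _ 0 le_rfl ?_ (fun k => ?_) (fun k => ?_)
    · rw [map_sub, h1, B.lam_one]; simp
    · rw [map_sub, h2, B.Y_one]; simp
    · rw [map_sub, h3, B.W_one]; simp
  exact sub_eq_zero.1 (norm_le_zero_iff.1 this)

/-- partial sums of the second copy of `c₀` -/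
noncomputable def ss (n : ℕ) : E := ∑ k ∈ Finset.range (n + 1), B.om k

theorem lam_ss (n : ℕ) : B.lam (ss B n) = 0 := by
  unfold ss
  rw [map_sum]
  exact Finset.sum_eq_zero (fun k _ => B.lam_om k)

theorem Y_ss (n k : ℕ) : B.Y k (ss B n) = 0 := by
  unfold ss
  rw [map_sum]
  exact Finset.sum_eq_zero (fun j _ => B.Y_om j k)

theorem W_ss (n k : ℕ) : B.W k (ss B n) = if k ≤ n then 1 else 0 := by
  unfold ss
  rw [map_sum]
  simp_rw [B.W_om, Finset.sum_ite_eq, Finset.mem_range, Nat.lt_succ_iff]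

/-- the far away points -/
noncomputable def yy (n : ℕ) : E := B.one - (2 - bb n) • B.dl n + sg n • ss B n

theorem lam_yy (n : ℕ) : B.lam (yy B n) = 1 := by
  unfold yy
  rw [map_add, map_sub, map_smul, map_smul, B.lam_one, B.lam_dl, lam_ss]
  simp

theorem Y_yy (n k : ℕ) : B.Y k (yy B n) = if k = n then -(2 - bb n) else 0 := by
  unfold yy
  rw [map_add, map_sub, map_smul, map_smul, B.Y_one, B.Y_dl, Y_ss]
  split_ifs <;> simp

theorem W_yy (n k : ℕ) : B.W k (yy B n) = if k ≤ n then sg n else 0 := by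
  unfold yy
  rw [map_add, map_sub, map_smul, map_smul, B.W_one, B.W_dl, W_ss]
  split_ifs <;> simp

theorem jump_yy (n k : ℕ) :
    B.W k (yy B n) - B.W (k + 1) (yy B n) = if k = n then sg n else 0 := by
  rw [W_yy, W_yy]
  by_cases h1 : k = n
  · subst h1; simp
  · by_cases h2 : k ≤ n
    · rw [if_pos h2, if_pos (by omega), if_neg h1, sub_self]
    · rw [if_neg h2, if_neg (by omega), if_neg h1, sub_self]

theorem Bd_yy (n : ℕ) : Bd B (yy B n) 1 := by
  have hb1 := bb_pos n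
  have hb2 := bb_le n
  refine ⟨fun k => ?_, fun k => ?_, fun k => ?_, fun k => ?_⟩
  · rw [jump_yy, lam_yy, Y_yy]
    by_cases h : k = n
    · subst h
      rw [if_pos rfl, if_pos rfl, abs_le]
      rcases sg_cases k with hs | hs <;> rw [hs] <;> constructor <;> linarith
    · rw [if_neg h, if_neg h]; simp
  · rw [jump_yy, lam_yy, Y_yy]
    by_cases h : k = n
    · subst h
      rw [if_pos rfl, if_pos rfl, abs_le]
      rcases sg_cases k with hs | hs <;> rw [hs] <;> constructor <;> linarith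
    · rw [if_neg h, if_neg h]; simp
  · rw [W_yy]
    split_ifs
    · rcases sg_cases n with hs | hs <;> rw [hs] <;> simp
    · simp
  · rw [Y_yy, W_yy, if_pos (Nat.zero_le n)]
    by_cases h : k = n
    · subst h
      rw [if_pos rfl, abs_le]
      rcases sg_cases k with hs | hs <;> rw [hs] <;> constructor <;> linarith
    · rw [if_neg h, abs_le]
      rcases sg_cases k with hs | hs <;> rcases sg_cases n with ht | ht <;> rw [hs, ht] <;>
        constructor <;> norm_num

theorem Bd_one : Bd B B.one 1 := by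
  refine ⟨fun k => ?_, fun k => ?_, fun k => ?_, fun k => ?_⟩ <;>
    simp [B.lam_one, B.Y_one, B.W_one]

/-- bounded signed sums, first copy -/
theorem signs_dl (s : Finset ℕ) (σ : ℕ → ℝ) (hσ : ∀ k, |σ k| ≤ 1) :
    ‖∑ k ∈ s, σ k • B.dl k‖ ≤ 1 := by
  refine B.norm_le _ 1 zero_le_one ?_ (fun k => ?_) (fun k => ?_)
  · rw [map_sum, Finset.sum_eq_zero (fun k _ => by rw [map_smul, B.lam_dl, smul_zero])]; simp
  · rw [map_sum]
    simp_rw [map_smul, B.Y_dl, smul_eq_mul, mul_ite, mul_one, mul_zero, Finset.sum_ite_eq]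
    split_ifs
    · exact hσ k
    · simp
  · rw [map_sum, Finset.sum_eq_zero (fun k _ => by rw [map_smul, B.W_dl, smul_zero])]; simp

/-- bounded signed sums, second copy -/
theorem signs_om (s : Finset ℕ) (σ : ℕ → ℝ) (hσ : ∀ k, |σ k| ≤ 1) :
    ‖∑ k ∈ s, σ k • B.om k‖ ≤ 1 := by
  refine B.norm_le _ 1 zero_le_one ?_ (fun k => ?_) (fun k => ?_)
  · rw [map_sum, Finset.sum_eq_zero (fun k _ => by rw [map_smul, B.lam_om, smul_zero])]; simp
  · rw [map_sum, Finset.sum_eq_zero (fun k _ => by rw [map_smul, B.Y_om, smul_zero])]; simp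
  · rw [map_sum]
    simp_rw [map_smul, B.W_om, smul_eq_mul, mul_ite, mul_one, mul_zero, Finset.sum_ite_eq]
    split_ifs
    · exact hσ k
    · simp

theorem F_dl (F : E →L[ℝ] ℝ) : Tendsto (fun n => F (B.dl n)) atTop (𝓝 0) :=
  (summable_of_signs B.dl (signs_dl B) F).of_abs.tendsto_atTop_zero

theorem F_ss (F : E →L[ℝ] ℝ) : ∃ L : ℝ, Tendsto (fun n => F (ss B n)) atTop (𝓝 L) := by
  have h := (summable_of_signs B.om (signs_om B) F).of_abs
  refine ⟨_, (h.hasSum.tendsto_sum_nat.comp (tendsto_add_atTop_nat 1)).congr (fun n => ?_)⟩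
  simp only [Function.comp_apply, ss]
  rw [map_sum]

/-- In the direction of any functional there are far away points. -/
theorem exists_far (F : E →L[ℝ] ℝ) (δ : ℝ) (hδ : 0 < δ) :
    ∃ n, F B.one - δ < F (yy B n) := by
  obtain ⟨L, hL⟩ := F_ss B F
  have h1 := F_dl B F
  have h2 : ∀ᶠ n in atTop, |F (B.dl n)| < δ / 4 := by
    have := h1.abs
    rw [abs_zero] at this
    exact this.eventually_lt_const (by positivity)
  have h3 : ∀ᶠ n in atTop, |F (ss B n) - L| < δ / 4 := by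
    have := (hL.sub_const L).abs
    rw [sub_self, abs_zero] at this
    exact this.eventually_lt_const (by positivity)
  obtain ⟨N, hN⟩ := (h2.and h3).exists_forall_of_atTop
  have key : ∃ n, N ≤ n ∧ 0 ≤ sg n * L := by
    rcases le_total 0 L with h | h
    · refine ⟨2 * N, by omega, ?_⟩
      have : sg (2 * N) = 1 := by unfold sg; rw [pow_mul]; simp
      rw [this]; linarith
    · refine ⟨2 * N + 1, by omega, ?_⟩
      have : sg (2 * N + 1) = -1 := by unfold sg; rw [pow_succ, pow_mul]; simp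
      rw [this]; linarith
  obtain ⟨n, hn, hs⟩ := key
  obtain ⟨a1, a2⟩ := hN n hn
  refine ⟨n, ?_⟩
  unfold yy
  rw [map_add, map_sub, map_smul, map_smul, smul_eq_mul, smul_eq_mul]
  have b1 := abs_lt.1 a1
  have b2 := abs_lt.1 a2
  have hb1 := bb_pos n
  have hb2 := bb_le n
  have c1 : (2 - bb n) * F (B.dl n) ≤ 2 * (δ / 4) := by
    have : (2 - bb n) * F (B.dl n) ≤ (2 - bb n) * |F (B.dl n)| :=
      mul_le_mul_of_nonneg_left (le_abs_self _) (by linarith)
    refine this.trans (mul_le_mul (by linarith) a1.le (abs_nonneg _) (by norm_num))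
  have c2 : -(δ / 4) < sg n * F (ss B n) := by
    rcases sg_cases n with ht | ht
    · rw [ht] at hs ⊢; linarith [b2.1]
    · rw [ht] at hs ⊢; linarith [b2.2]
  linarith

end

end Q88.DP
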