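import Pool.Agent.Q88.DP.Base

/-!
Renormings of a Banach space by a bounded norming family of functionals.
-/

namespace Q88.DP

open Filter Topology

open scoped ENNReal

section

variable {E : Type} [NormedAddCommGroup E] [NormedSpace ℝ E] {ι : Type}

/-- the coordinate map -/
noncomputable def Phi (c : ι → E →L[ℝ] ℝ) (K : ℝ) (hc : ∀ i e, |c i e| ≤ K * ‖e‖) :
    E →L[ℝ] lp (fun _ : ι => ℝ) ∞ :=
  LinearMap.mkContinuous
    { toFun := fun e => ⟨fun i => c i e, memℓp_infty ⟨K * ‖e‖, by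
        rintro _ ⟨i, rfl⟩; exact hc i e⟩⟩
      map_add' := fun x y => by ext i; exact map_add (c i) x y
      map_smul' := fun r x => by ext i; exact map_smul (c i) r x } (max K 0) (fun e => by
        refine lp.norm_le_of_forall_le (by positivity) (fun i => ?_)
        exact (hc i e).trans (mul_le_mul_of_nonneg_right (le_max_left _ _) (norm_nonneg _)))

theorem Phi_apply (c : ι → E →L[ℝ] ℝ) (K : ℝ) (hc : ∀ i e, |c i e| ≤ K * ‖e‖) (e : E) (i : ι) :
    (Phi c K hc e : ι → ℝ) i = c i e := rfl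

theorem Phi_norm_le (c : ι → E →L[ℝ] ℝ) (K : ℝ) (hc : ∀ i e, |c i e| ≤ K * ‖e‖) (e : E) {r : ℝ}
    (hr : 0 ≤ r) (h : ∀ i, |c i e| ≤ r) : ‖Phi c K hc e‖ ≤ r :=
  lp.norm_le_of_forall_le hr h

theorem le_Phi_norm (c : ι → E →L[ℝ] ℝ) (K : ℝ) (hc : ∀ i e, |c i e| ≤ K * ‖e‖) (e : E) (i : ι) :
    |c i e| ≤ ‖Phi c K hc e‖ :=
  lp.norm_apply_le_norm ENNReal.top_ne_zero (Phi c K hc e) i

/-- Every Banach space with a bounded norming family of functionals has the corresponding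
renorming, realised as a Banach space. -/
theorem exists_renorm [CompleteSpace E] (c : ι → E →L[ℝ] ℝ) (K L : ℝ) (hL : 0 < L)
    (hc : ∀ i e, |c i e| ≤ K * ‖e‖)
    (hb : ∀ (e : E) (r : ℝ), 0 ≤ r → (∀ i, |c i e| ≤ r) → ‖e‖ ≤ L * r) :
    ∃ (X : Type) (_ : NormedAddCommGroup X) (_ : NormedSpace ℝ X) (_ : CompleteSpace X)
      (T : E ≃L[ℝ] X), (∀ (e : E) (i : ι), |c i e| ≤ ‖T e‖) ∧
        ∀ (e : E) (r : ℝ), 0 ≤ r → (∀ i, |c i e| ≤ r) → ‖T e‖ ≤ r := by
  have hbb : ∀ e : E, ‖e‖ ≤ L * ‖Phi c K hc e‖ := fun e =>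
    hb e _ (norm_nonneg _) (le_Phi_norm c K hc e)
  have hanti : AntilipschitzWith (Real.toNNReal L) (Phi c K hc) := by
    refine AddMonoidHomClass.antilipschitz_of_bound (Phi c K hc) (fun e => ?_)
    rw [Real.coe_toNNReal _ hL.le]
    exact hbb e
  have hclosed : IsClosed (Set.range (Phi c K hc)) :=
    hanti.isClosed_range (Phi c K hc).uniformContinuous
  let R : Submodule ℝ (lp (fun _ : ι => ℝ) ∞) := LinearMap.range (Phi c K hc).toLinearMap
  have hRc : IsClosed (R : Set (lp (fun _ : ι => ℝ) ∞)) := by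
    have : (R : Set (lp (fun _ : ι => ℝ) ∞)) = Set.range (Phi c K hc) := by
      ext; simp [R]
    rw [this]; exact hclosed
  haveI : CompleteSpace R := hRc.completeSpace_coe
  have hinj : Function.Injective (Phi c K hc).toLinearMap := hanti.injective
  let T0 : E ≃ₗ[ℝ] R := LinearEquiv.ofInjective (Phi c K hc).toLinearMap hinj
  have hT0 : ∀ e, ‖T0 e‖ = ‖Phi c K hc e‖ := fun e => rfl
  let T : E ≃L[ℝ] R := T0.toContinuousLinearEquivOfBounds ‖Phi c K hc‖ L
    (fun e => by rw [hT0]; exact (Phi c K hc).le_opNorm e)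
    (fun y => by
      obtain ⟨e, rfl⟩ := T0.surjective y
      rw [T0.symm_apply_apply, hT0]
      exact hbb e)
  refine ⟨R, inferInstance, inferInstance, inferInstance, T, fun e i => ?_, fun e r hr h => ?_⟩
  · exact le_Phi_norm c K hc e i
  · exact Phi_norm_le c K hc e hr h

end

end Q88.DP
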